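import Pool.Agent.H24.FD.P3

/-! MP_1f2761, k = 2: row COC, cover of the exceptional points of `c` blocks by small unions of cells. -/

set_option autoImplicit false

namespace Pool.Agent.H54.FD
open Finset Pool.K2 Pool.FD MeasureTheory Pool.Agent.H24.FD

theorem ex_int (x : ℝ) (n : ℤ) : ex (x + n) = ex x := by
  unfold ex
  have e : (2 * (Real.pi : ℂ) * ((x + n : ℝ) : ℂ) * Complex.I) =
      2 * (Real.pi : ℂ) * (x : ℂ) * Complex.I + n * (2 * (Real.pi : ℂ) * Complex.I) := by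
    push_cast
    ring
  rw [e, Complex.exp_add, Complex.exp_int_mul_two_pi_mul_I, mul_one]

theorem fe_int (P : ℕ) (x : ℝ) (n : ℤ) : fe P (x + n) = fe P x := by
  unfold fe
  have e : ∑ j ∈ range P, ex (j * (x + n)) = ∑ j ∈ range P, ex (j * x) := by
    refine Finset.sum_congr rfl fun j _ => ?_
    have e1 : (j : ℝ) * (x + n) = j * x + ((j * n : ℤ) : ℝ) := by
      push_cast
      ring
    rw [e1, ex_int]
  rw [e]

theorem omT_int (P : ℕ) (Om : ℕ → ℕ → ℝ) (x₁ x₂ : ℝ) (n m : ℤ) :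
    omT P Om (x₁ + n) (x₂ + m) = omT P Om x₁ x₂ := by
  unfold omT
  refine congrArg (fun t => c4 * t) ?_
  refine Finset.sum_congr rfl fun z₁ _ => Finset.sum_congr rfl fun z₂ _ => ?_
  have e1 : x₁ + n - ((z₁ : ℝ) + 1 / 2) / P = (x₁ - ((z₁ : ℝ) + 1 / 2) / P) + n := by ring
  have e2 : x₂ + m - ((z₂ : ℝ) + 1 / 2) / P = (x₂ - ((z₂ : ℝ) + 1 / 2) / P) + m := by ring
  rw [e1, e2, fe_int, fe_int]

theorem Rs_int (r : ℕ) (p : ℕ → ℕ → ℝ) (P : ℕ) (Om : ℕ → ℕ → ℝ) (k : ℤ × ℤ) (y s1 s2 : ℝ)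
    (n m : ℤ) : Rs r p P Om k y (s1 + n) (s2 + m) = Rs r p P Om k y s1 s2 := by
  unfold Rs
  refine Finset.sum_congr rfl fun a _ => Finset.sum_congr rfl fun b _ => ?_
  have e1 : s1 + n + y * a / P = (s1 + y * a / P) + n := by ring
  have e2 : s2 + m + y * b / P = (s2 + y * b / P) + m := by ring
  have e3 : (k.1 : ℝ) * (P * (s1 + n) + y * a) + k.2 * (P * (s2 + m) + y * b) =
      (k.1 * (P * s1 + y * a) + k.2 * (P * s2 + y * b)) + ((k.1 * P * n + k.2 * P * m : ℤ) : ℝ) := by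
    push_cast
    ring
  rw [e1, e2, omT_int, e3, ex_int]

theorem Rsh_int (q i r : ℕ) (p : ℕ → ℕ → ℝ) (P : ℕ) (Om : ℕ → ℕ → ℝ) (y s1 s2 : ℝ)
    (n m : ℤ) : Rsh q i r p P Om y (s1 + n) (s2 + m) = Rsh q i r p P Om y s1 s2 := by
  unfold Rsh
  refine Finset.sum_congr rfl fun a _ => ?_
  have e3 : (a.1 : ℝ) * (s1 + n) + a.2 * (s2 + m) =
      (a.1 * s1 + a.2 * s2) + ((a.1 * n + a.2 * m : ℤ) : ℝ) := by
    push_cast
    ring
  rw [e3, ex_int]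

/-- a real number is congruent modulo one to a number in the cell with its index -/
theorem cell_rep (K : ℕ) (hK : 0 < K) (s : ℝ) :
    ix K s < K ∧ ∃ n : ℤ, ((ix K s : ℕ) : ℝ) / K ≤ s + n ∧ s + n ≤ (((ix K s : ℕ) : ℝ) + 1) / K := by
  have hKz : (0 : ℤ) < (K : ℤ) := by exact_mod_cast hK
  have hKr : (0 : ℝ) < (K : ℝ) := by exact_mod_cast hK
  have h0 : 0 ≤ ⌊(K : ℝ) * s⌋ % (K : ℤ) := Int.emod_nonneg _ hKz.ne'
  have h1 : ⌊(K : ℝ) * s⌋ % (K : ℤ) < K := Int.emod_lt_of_pos _ hKz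
  have h2 : ((ix K s : ℕ) : ℤ) = ⌊(K : ℝ) * s⌋ % (K : ℤ) := by
    unfold ix fl
    exact Int.toNat_of_nonneg h0
  have h3 : ((ix K s : ℕ) : ℝ) = ((⌊(K : ℝ) * s⌋ % (K : ℤ) : ℤ) : ℝ) := by
    rw [← h2]
    push_cast
    rfl
  have h4 : (K : ℤ) * (⌊(K : ℝ) * s⌋ / (K : ℤ)) + ⌊(K : ℝ) * s⌋ % (K : ℤ) = ⌊(K : ℝ) * s⌋ :=
    Int.mul_ediv_add_emod _ _
  have h5 : (K : ℝ) * ((⌊(K : ℝ) * s⌋ / (K : ℤ) : ℤ) : ℝ) + ((⌊(K : ℝ) * s⌋ % (K : ℤ) : ℤ) : ℝ) =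
      ((⌊(K : ℝ) * s⌋ : ℤ) : ℝ) := by
    exact_mod_cast h4
  have h6 := Int.floor_le ((K : ℝ) * s)
  have h7 := (Int.lt_floor_add_one ((K : ℝ) * s)).le
  refine ⟨by omega, -(⌊(K : ℝ) * s⌋ / (K : ℤ)), ?_, ?_⟩
  · rw [div_le_iff₀ hKr, h3]
    push_cast
    nlinarith
  · rw [le_div_iff₀ hKr, h3]
    push_cast
    nlinarith

open Classical in
/-- a periodic function which is large at few cells -/
theorem cover (K : ℕ) (hK : 0 < K) (f : ℝ → ℝ → ℝ) (hf : ∀ s1 s2, 0 ≤ f s1 s2)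
    (per : ∀ (s1 s2 : ℝ) (n m : ℤ), f (s1 + n) (s2 + m) = f s1 s2) (S : ℝ)
    (hS : ∀ x : ℕ × ℕ → ℝ × ℝ,
      (∀ s ∈ range K ×ˢ range K, (s.1:ℝ) / K ≤ (x s).1 ∧ (x s).1 ≤ (s.1 + 1) / K ∧
        (s.2:ℝ) / K ≤ (x s).2 ∧ (x s).2 ≤ (s.2 + 1) / K) →
      ∑ s ∈ range K ×ˢ range K, f (x s).1 (x s).2 ≤ S) (θ : ℝ) :
    ∃ E : Finset (ℕ × ℕ), E ⊆ range K ×ˢ range K ∧ (E.card : ℝ) * θ ≤ S ∧
      ∀ s1 s2 : ℝ, θ < f s1 s2 → (ix K s1, ix K s2) ∈ E := by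
  have hKr : (0 : ℝ) < (K : ℝ) := by exact_mod_cast hK
  have key : ∀ s : ℕ × ℕ, ∃ p : ℝ × ℝ, ((s.1:ℝ) / K ≤ p.1 ∧ p.1 ≤ (s.1 + 1) / K ∧
      (s.2:ℝ) / K ≤ p.2 ∧ p.2 ≤ (s.2 + 1) / K) ∧
      ((∃ s1 s2, ix K s1 = s.1 ∧ ix K s2 = s.2 ∧ θ < f s1 s2) → θ < f p.1 p.2) := by
    intro s
    by_cases h : ∃ s1 s2, ix K s1 = s.1 ∧ ix K s2 = s.2 ∧ θ < f s1 s2
    · obtain ⟨s1, s2, e1, e2, h3⟩ := h
      obtain ⟨-, n, a1, a2⟩ := cell_rep K hK s1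
      obtain ⟨-, m, b1, b2⟩ := cell_rep K hK s2
      rw [e1] at a1 a2
      rw [e2] at b1 b2
      refine ⟨(s1 + n, s2 + m), ⟨a1, a2, b1, b2⟩, fun _ => ?_⟩
      show θ < f (s1 + n) (s2 + m)
      rw [per]
      exact h3
    · refine ⟨((s.1 : ℝ) / K, (s.2 : ℝ) / K), ⟨le_refl _, ?_, le_refl _, ?_⟩, fun h' => absurd h' h⟩
      · exact div_le_div_of_nonneg_right (by linarith) hKr.le
      · exact div_le_div_of_nonneg_right (by linarith) hKr.le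
  choose x hx hx' using key
  have h1 := hS x (fun s _ => hx s)
  refine ⟨(range K ×ˢ range K).filter
    (fun s => ∃ s1 s2, ix K s1 = s.1 ∧ ix K s2 = s.2 ∧ θ < f s1 s2), filter_subset _ _, ?_, ?_⟩
  · refine le_trans ?_ h1
    have h2 : ∑ s ∈ (range K ×ˢ range K).filter
        (fun s => ∃ s1 s2, ix K s1 = s.1 ∧ ix K s2 = s.2 ∧ θ < f s1 s2), θ ≤
        ∑ s ∈ (range K ×ˢ range K).filter
        (fun s => ∃ s1 s2, ix K s1 = s.1 ∧ ix K s2 = s.2 ∧ θ < f s1 s2), f (x s).1 (x s).2 := by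
      refine Finset.sum_le_sum fun s hs => ?_
      exact (hx' s (Finset.mem_filter.mp hs).2).le
    rw [Finset.sum_const, nsmul_eq_mul] at h2
    exact h2.trans (Finset.sum_le_sum_of_subset_of_nonneg (filter_subset _ _) fun s _ _ => hf _ _)
  · intro s1 s2 h
    rw [Finset.mem_filter, Finset.mem_product, Finset.mem_range, Finset.mem_range]
    exact ⟨⟨(cell_rep K hK s1).1, (cell_rep K hK s2).1⟩, s1, s2, rfl, rfl, h⟩

/-- number of digits and number of bits -/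
theorem pow_tt_le (q W J : ℕ) (hq : 2 ≤ q) (hW : W ≤ J) :
    (q : ℝ) ^ tt q W J ≤ q * (2 : ℝ) ^ W := by
  have hq1 : 1 < q := by omega
  have hm : II q (J - W) ≤ II q J := by
    unfold II
    exact Nat.clog_mono_right q (Nat.pow_le_pow_right (by norm_num) (by omega))
  have h1 : 2 ^ (J - W) ≤ q ^ II q (J - W) := Nat.le_pow_clog hq1 _
  have h2 : q ^ II q J ≤ q * 2 ^ J := by
    rcases Nat.eq_zero_or_pos (II q J) with h0 | h0
    · rw [h0, pow_zero]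
      exact Nat.one_le_iff_ne_zero.mpr (by positivity)
    · obtain ⟨a, ha⟩ := Nat.exists_eq_succ_of_ne_zero h0.ne'
      have h3 : q ^ a < 2 ^ J := by
        refine (Nat.lt_clog_iff_pow_lt hq1).mp ?_
        change a < II q J
        omega
      rw [ha, Nat.succ_eq_add_one, pow_succ, mul_comm]
      exact Nat.mul_le_mul_left q h3.le
  have h3 : q ^ tt q W J * q ^ II q (J - W) = q ^ II q J := by
    rw [← pow_add]
    unfold tt
    rw [Nat.sub_add_cancel hm]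
  have h4 : q ^ tt q W J * 2 ^ (J - W) ≤ (q * 2 ^ W) * 2 ^ (J - W) := by
    calc q ^ tt q W J * 2 ^ (J - W) ≤ q ^ tt q W J * q ^ II q (J - W) := Nat.mul_le_mul_left _ h1
      _ = q ^ II q J := h3
      _ ≤ q * 2 ^ J := h2
      _ = (q * 2 ^ W) * 2 ^ (J - W) := by
        rw [mul_assoc, ← pow_add, Nat.add_sub_cancel' hW]
  have h5 : q ^ tt q W J ≤ q * 2 ^ W := Nat.le_of_mul_le_mul_right h4 (by positivity)
  exact_mod_cast h5

/-- shells: the numerical step -/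
theorem shell_num (q t₁ i : ℕ) (hq : 2 ≤ q) (low : 200 ≤ (q : ℝ) ^ (3 / 1000 * t₁ : ℝ)) (hi : t₁ < i)
    (N F : ℝ) (hF : F ≤ (q : ℝ) ^ (-(534 / 1000 * i : ℝ)))
    (hN : N * ((q : ℝ) ^ (-(5 / 10000 * i : ℝ))) ^ 2 ≤ 200 * ((q:ℝ) ^ i) ^ 2 * F) :
    N / ((q ^ i : ℕ) : ℝ) ^ 2 ≤ ((q ^ i : ℕ) : ℝ) ^ (-(53 / 100 : ℝ)) := by
  have hq0 : (0 : ℝ) < (q : ℝ) := by
    have : 0 < q := by omega
    exact_mod_cast this
  have hq1 : (1 : ℝ) ≤ (q : ℝ) := by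
    have : 1 ≤ q := by omega
    exact_mod_cast this
  have hP : (0 : ℝ) < (q : ℝ) ^ i := by positivity
  have e1 : ((q : ℝ) ^ (-(5 / 10000 * i : ℝ))) ^ 2 = (q : ℝ) ^ (-(1 / 1000 * i : ℝ)) := by
    rw [← Real.rpow_natCast, ← Real.rpow_mul hq0.le]
    congr 1
    push_cast
    ring
  rw [e1] at hN
  have e2 : (((q ^ i : ℕ) : ℝ)) ^ (-(53 / 100 : ℝ)) = (q : ℝ) ^ (-(530 / 1000 * i : ℝ)) := by
    push_cast
    rw [← Real.rpow_natCast, ← Real.rpow_mul hq0.le]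
    congr 1
    ring
  rw [e2]
  push_cast
  rw [div_le_iff₀ (by positivity)]
  have h200 : (200 : ℝ) ≤ (q : ℝ) ^ (3 / 1000 * i : ℝ) := by
    refine low.trans (Real.rpow_le_rpow_of_exponent_le hq1 ?_)
    have : (t₁ : ℝ) ≤ i := by exact_mod_cast hi.le
    linarith
  have hθ : (0 : ℝ) < (q : ℝ) ^ (-(1 / 1000 * i : ℝ)) := Real.rpow_pos_of_pos hq0 _
  refine le_of_mul_le_mul_right ?_ hθ
  refine hN.trans ?_
  have e3 : (q : ℝ) ^ (-(530 / 1000 * i : ℝ)) * ((q : ℝ) ^ i) ^ 2 * (q : ℝ) ^ (-(1 / 1000 * i : ℝ)) =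
      (q : ℝ) ^ (3 / 1000 * i : ℝ) * ((q : ℝ) ^ i) ^ 2 * (q : ℝ) ^ (-(534 / 1000 * i : ℝ)) := by
    have e4 : (q : ℝ) ^ (-(530 / 1000 * i : ℝ)) * (q : ℝ) ^ (-(1 / 1000 * i : ℝ)) =
        (q : ℝ) ^ (3 / 1000 * i : ℝ) * (q : ℝ) ^ (-(534 / 1000 * i : ℝ)) := by
      rw [← Real.rpow_add hq0, ← Real.rpow_add hq0]
      congr 1
      ring
    calc (q : ℝ) ^ (-(530 / 1000 * i : ℝ)) * ((q : ℝ) ^ i) ^ 2 * (q : ℝ) ^ (-(1 / 1000 * i : ℝ))
        = ((q : ℝ) ^ (-(530 / 1000 * i : ℝ)) * (q : ℝ) ^ (-(1 / 1000 * i : ℝ))) * ((q : ℝ) ^ i) ^ 2 := by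
          ring
      _ = _ := by
          rw [e4]
          ring
  rw [e3]
  have hpos : (0 : ℝ) ≤ (q : ℝ) ^ (-(534 / 1000 * i : ℝ)) := (Real.rpow_pos_of_pos hq0 _).le
  calc 200 * ((q:ℝ) ^ i) ^ 2 * F ≤ 200 * ((q:ℝ) ^ i) ^ 2 * (q : ℝ) ^ (-(534 / 1000 * i : ℝ)) :=
        mul_le_mul_of_nonneg_left hF (by positivity)
    _ ≤ (q : ℝ) ^ (3 / 1000 * i : ℝ) * ((q : ℝ) ^ i) ^ 2 * (q : ℝ) ^ (-(534 / 1000 * i : ℝ)) :=
        mul_le_mul_of_nonneg_right (mul_le_mul_of_nonneg_right h200 (by positivity)) hpos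

/-- high frequencies: the numerical step -/
theorem high_num (q w c : ℕ) (hq0 : 0 < q) (hq5 : q ≤ 5) (hw : 30 ≤ w) (hc : 1100 ≤ c) (K P : ℕ)
    (hP0 : 0 < P) (hP : (P : ℝ) ≤ q * (2 : ℝ) ^ (w * c)) (hK : K = 2 * 4 ^ w * P) (N F : ℝ)
    (hF : F ≤ (2 : ℝ) ^ (4 * w - 536 / 1000 * (w * c) : ℝ))
    (hN : N * (2 : ℝ) ^ (-(1 / 1000 * (w * c) : ℝ)) ≤ 200 * (K : ℝ) ^ 2 * F) :
    N / (K : ℝ) ^ 2 ≤ (K : ℝ) ^ (-(53 / 100 : ℝ)) := by
  have two : (0 : ℝ) < 2 := by norm_num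
  have hKpos : 0 < K := by
    rw [hK]
    positivity
  have hKr : (0 : ℝ) < (K : ℝ) := by exact_mod_cast hKpos
  have hKle : (K : ℝ) ≤ (2 : ℝ) ^ (4 + 2 * w + w * c : ℝ) := by
    have h1 : (K : ℝ) = 2 * 4 ^ w * P := by
      rw [hK]
      push_cast
      ring
    have h2 : (q : ℝ) ≤ 8 := by
      have : q ≤ 8 := by omega
      exact_mod_cast this
    have h3 : (4 : ℝ) ^ w = (2 : ℝ) ^ (2 * w) := by
      rw [pow_mul]
      norm_num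
    have h4 : (2 : ℝ) ^ (4 + 2 * w + w * c : ℝ) = (2 : ℝ) ^ (4 + 2 * w + w * c : ℕ) := by
      rw [← Real.rpow_natCast]
      push_cast
      rfl
    rw [h4, h1, h3, pow_add, pow_add]
    calc (2 : ℝ) * 2 ^ (2 * w) * P ≤ 2 * 2 ^ (2 * w) * (8 * (2 : ℝ) ^ (w * c)) := by
          refine mul_le_mul_of_nonneg_left (hP.trans ?_) (by positivity)
          exact mul_le_mul_of_nonneg_right h2 (by positivity)
      _ = 2 ^ 4 * 2 ^ (2 * w) * 2 ^ (w * c) := by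
          norm_num
          ring
  have h5 : (2 : ℝ) ^ (-(53 / 100 * (4 + 2 * w + w * c)) : ℝ) ≤ (K : ℝ) ^ (-(53 / 100 : ℝ)) := by
    have e : (2 : ℝ) ^ (-(53 / 100 * (4 + 2 * w + w * c)) : ℝ) =
        ((2 : ℝ) ^ (4 + 2 * w + w * c : ℝ)) ^ (-(53 / 100 : ℝ)) := by
      rw [← Real.rpow_mul two.le]
      congr 1
      ring
    rw [e]
    exact Real.rpow_le_rpow_of_nonpos hKr hKle (by norm_num)
  refine le_trans ?_ h5
  rw [div_le_iff₀ (by positivity)]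
  have hθ : (0 : ℝ) < (2 : ℝ) ^ (-(1 / 1000 * (w * c) : ℝ)) := Real.rpow_pos_of_pos two _
  refine le_of_mul_le_mul_right ?_ hθ
  refine hN.trans ?_
  have h200 : (200 : ℝ) ≤ (2 : ℝ) ^ (8 : ℝ) := by
    have : (2 : ℝ) ^ (8 : ℝ) = (2 : ℝ) ^ (8 : ℕ) := by
      rw [← Real.rpow_natCast]
      norm_num
    rw [this]
    norm_num
  have hwr : (30 : ℝ) ≤ (w : ℝ) := by exact_mod_cast hw
  have hcr : (1100 : ℝ) ≤ (c : ℝ) := by exact_mod_cast hc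
  have hwc : (w : ℝ) * 1100 ≤ (w : ℝ) * c := mul_le_mul_of_nonneg_left hcr (by linarith)
  calc 200 * (K : ℝ) ^ 2 * F ≤ (2 : ℝ) ^ (8 : ℝ) * (K : ℝ) ^ 2 * (2 : ℝ) ^ (4 * w - 536 / 1000 * (w * c) : ℝ) := by
        refine (mul_le_mul_of_nonneg_left hF (by positivity)).trans ?_
        exact mul_le_mul_of_nonneg_right (mul_le_mul_of_nonneg_right h200 (by positivity))
          (Real.rpow_pos_of_pos two _).le
    _ = (2 : ℝ) ^ (8 + (4 * w - 536 / 1000 * (w * c)) : ℝ) * (K : ℝ) ^ 2 := by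
        rw [Real.rpow_add two]
        ring
    _ ≤ (2 : ℝ) ^ (-(53 / 100 * (4 + 2 * w + w * c)) + -(1 / 1000 * (w * c)) : ℝ) * (K : ℝ) ^ 2 := by
        refine mul_le_mul_of_nonneg_right ?_ (by positivity)
        refine Real.rpow_le_rpow_of_exponent_le (by norm_num) ?_
        nlinarith
    _ = (2 : ℝ) ^ (-(53 / 100 * (4 + 2 * w + w * c)) : ℝ) * (K : ℝ) ^ 2 *
        (2 : ℝ) ^ (-(1 / 1000 * (w * c)) : ℝ) := by
        rw [Real.rpow_add two]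
        ring

theorem nm_le (Ks : ℕ) (κ : ℤ × ℤ) (h : κ ∈ bx0 Ks) : nm κ + 1 ≤ Ks := by
  unfold bx0 bx at h
  rw [Finset.mem_filter, Finset.mem_product, Finset.mem_Ioo, Finset.mem_Ioo] at h
  obtain ⟨⟨⟨a1, a2⟩, b1, b2⟩, -⟩ := h
  unfold nm
  have h1 : |(κ.1 : ℝ)| ≤ Ks - 1 := by
    rw [abs_le]
    constructor
    · have : -(Ks : ℤ) + 1 ≤ κ.1 := by omega
      have : -(Ks : ℝ) + 1 ≤ (κ.1 : ℝ) := by exact_mod_cast this
      linarith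
    · have : κ.1 ≤ (Ks : ℤ) - 1 := by omega
      exact_mod_cast this
  have h2 : |(κ.2 : ℝ)| ≤ Ks - 1 := by
    rw [abs_le]
    constructor
    · have : -(Ks : ℤ) + 1 ≤ κ.2 := by omega
      have : -(Ks : ℝ) + 1 ≤ (κ.2 : ℝ) := by exact_mod_cast this
      linarith
    · have : κ.2 ≤ (Ks : ℤ) - 1 := by omega
      exact_mod_cast this
  have h3 := max_le h1 h2
  linarith

/-- cover of a large shell -/
theorem shell_cover (hs : Pool.FD.RSHStmt) (q t₁ i : ℕ) (hq : 2 ≤ q)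
    (low : 200 ≤ (q : ℝ) ^ (3 / 1000 * t₁ : ℝ)) (hi : t₁ < i) (r : ℕ) (p : ℕ → ℕ → ℝ) (P : ℕ)
    (hP : 0 < P) (Om : ℕ → ℕ → ℝ) (y : ℝ)
    (hF : Fs q i r p P Om y ≤ (q : ℝ) ^ (-(534 / 1000 * i : ℝ))) :
    ∃ E : Finset (ℕ × ℕ), E ⊆ range (q ^ i) ×ˢ range (q ^ i) ∧
      (E.card : ℝ) / ((q ^ i : ℕ) : ℝ) ^ 2 ≤ ((q ^ i : ℕ) : ℝ) ^ (-(53 / 100 : ℝ)) ∧
      ∀ s₁ s₂ : ℝ, (q : ℝ) ^ (-(5 / 10000 * i : ℝ)) < ‖Rsh q i r p P Om y s₁ s₂‖ →
        (ix (q ^ i) s₁, ix (q ^ i) s₂) ∈ E := by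
  have hq0 : 0 < q := by omega
  have hqr : (0 : ℝ) < (q : ℝ) := by exact_mod_cast hq0
  obtain ⟨E, hE, hc, hx⟩ := cover (q ^ i) (by positivity) (fun s1 s2 => ‖Rsh q i r p P Om y s1 s2‖ ^ 2)
    (fun s1 s2 => by positivity) (fun s1 s2 n m => by
      show ‖Rsh q i r p P Om y (s1 + n) (s2 + m)‖ ^ 2 = ‖Rsh q i r p P Om y s1 s2‖ ^ 2
      rw [Rsh_int]) (200 * ((q:ℝ) ^ i) ^ 2 * Fs q i r p P Om y)
    (fun x h => hs q i r hq p P hP Om y x h) (((q : ℝ) ^ (-(5 / 10000 * i : ℝ))) ^ 2)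
  refine ⟨E, hE, shell_num q t₁ i hq low hi _ _ hF hc, fun s₁ s₂ h => hx s₁ s₂ ?_⟩
  have h0 : (0 : ℝ) < (q : ℝ) ^ (-(5 / 10000 * i : ℝ)) := Real.rpow_pos_of_pos hqr _
  show ((q : ℝ) ^ (-(5 / 10000 * i : ℝ))) ^ 2 < ‖Rsh q i r p P Om y s₁ s₂‖ ^ 2
  exact pow_lt_pow_left₀ h h0.le (by norm_num)

end Pool.Agent.H54.FD

namespace Pool.Agent.H24.FD
open Finset Pool.K2 Pool.FD MeasureTheory Pool.Agent.H54.FD

/-- row COP follows in the same way -/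
theorem cop' (hs : Pool.FD.RSHStmt) : COPStmt := by
  intro q m g t₁ l k J wm hp hJ hG u hu i hi
  have hq0 : 0 < q := by
    have := hp.hq
    omega
  exact shell_cover hs q t₁ i hp.hq hp.low (Finset.mem_Ioc.mp hi).1 (l * u) (pw l u) _
    (by positivity) _ _ (hG u hu i hi)

theorem coc (hs : Pool.FD.RSHStmt) (he : Pool.FD.RCEStmt) : COCStmt := by
  intro q m g t₁ l k G Jt c J Ks wm hp hJ hKs hc hG
  have hq0 : 0 < q := by
    have := hp.hq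
    omega
  have hqr : (0 : ℝ) < (q : ℝ) := by exact_mod_cast hq0
  refine ⟨fun i hi => ?_, fun K hK => ?_⟩
  · exact shell_cover hs q t₁ i hp.hq hp.low (Finset.mem_Ioc.mp hi).1 (l * k * c) (pw l (k * c)) _
      (by positivity) _ _ (hG.1 i hi)
  · have hKs0 : 0 < Ks := by
      rw [hKs]
      positivity
    have hK0 : 0 < K := by
      rw [hK]
      positivity
    obtain ⟨E, hE, hcc, hx⟩ := cover K hK0 (fun s1 s2 => HiC q m g t₁ l k G Jt wm c J Ks s1 s2)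
      (fun s1 s2 => by
        show 0 ≤ HiC q m g t₁ l k G Jt wm c J Ks s1 s2
        unfold HiC
        exact Finset.sum_nonneg fun κ _ => by positivity)
      (fun s1 s2 n m' => by
        show HiC q m g t₁ l k G Jt wm c J Ks (s1 + n) (s2 + m') = HiC q m g t₁ l k G Jt wm c J Ks s1 s2
        unfold HiC
        refine Finset.sum_congr rfl fun κ _ => ?_
        rw [Rs_int])
      (200 * (K : ℝ) ^ 2 * ∑ κ ∈ bx0 Ks, Fk (l * k * c) (pw l (k * c)) (q ^ tt q (l * k * c) J)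
        (OMc q m g t₁ l k G Jt wm c J) κ (yy q (J - l * k * c)))
      (fun x h => by
        show ∑ s ∈ range K ×ˢ range K, HiC q m g t₁ l k G Jt wm c J Ks (x s).1 (x s).2 ≤ _
        unfold HiC
        rw [Finset.sum_comm, Finset.mul_sum]
        refine Finset.sum_le_sum fun κ hκ => ?_
        refine he (l * k * c) (pw l (k * c)) (q ^ tt q (l * k * c) J) (by positivity) _ κ _ K ?_ x h
        have h1 := nm_le Ks κ hκ
        have h2 : ((q ^ tt q (l * k * c) J : ℕ) : ℝ) * Ks * 2 = (K : ℝ) := by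
          rw [hK]
          push_cast
          ring
        have h3 : (0 : ℝ) < ((q ^ tt q (l * k * c) J : ℕ) : ℝ) := by
          have : 0 < q ^ tt q (l * k * c) J := by positivity
          exact_mod_cast this
        have h4 : (0 : ℝ) < (Ks : ℝ) := by exact_mod_cast hKs0
        have h5 := mul_le_mul_of_nonneg_right h1 h3.le
        have h6 := mul_pos h3 h4
        linarith)
      ((2 : ℝ) ^ (-(1 / 1000 * (l * k * c) : ℝ)))
    refine ⟨E, hE, ?_, hx⟩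
    refine high_num q (l * k) c hq0 hp.hq5 hp.hw hc K (q ^ tt q (l * k * c) J) (by positivity) ?_ ?_
      (E.card : ℝ) (∑ κ ∈ bx0 Ks, Fk (l * k * c) (pw l (k * c)) (q ^ tt q (l * k * c) J)
        (OMc q m g t₁ l k G Jt wm c J) κ (yy q (J - l * k * c))) ?_ ?_
    · have h := pow_tt_le q (l * k * c) J hp.hq hJ
      exact_mod_cast h
    · rw [hK, hKs]
    · have := hG.2
      push_cast
      exact this
    · push_cast
      exact hcc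

end Pool.Agent.H24.FD
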