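import Pool.Agent.H24.FD.P4
import Pool.Agent.H13.K2.Weyl
import Pool.Agent.H54.FD.COC

/-! MP_1f2761, k = 2: row AVS, almost all windows have `GoodF` at all structured blocks. -/

set_option autoImplicit false

namespace Pool.Agent.H54.FD
open Finset Pool.K2 Pool.FD MeasureTheory Pool.Agent.H24.FD

/-- row KB (93): the conditional law of the `a` part given a typical `N` part -/
def KBStmt : Prop := ∃ l₀ : ℕ, ∀ l ≥ l₀, ∀ e ∈ HH l l,
  (∑ x ∈ range (2 ^ (l * l)), kc l l e x = 1) ∧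
  ∀ D : ℝ, 1 ≤ D → D ≤ 2 ^ (l * l) →
    (∑ x ∈ range (2 ^ (l * l)), ∑ x' ∈ range (2 ^ (l * l)),
      if |(x : ℝ) - x'| < D then kc l l e x * kc l l e x' else 0) ≤
      2 ^ (2 * l + 4) * (D / 2 ^ (l * l)) ^ (1 / 2 - 2 * eb)

theorem pF_nonneg (ε : ℝ) {l : ℕ} (s : Fin l → Fin 3) : 0 ≤ pF ε s := by
  unfold pF
  split_ifs <;> positivity

theorem PF_nonneg (ε : ℝ) {l k : ℕ} (S : Fin k → Fin l → Fin 3) : 0 ≤ PF ε S := by
  unfold PF
  exact Finset.prod_nonneg fun i _ => pF_nonneg ε (S i)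

theorem kc_nonneg (l k e x : ℕ) : 0 ≤ kc l k e x := by
  unfold kc
  refine mul_nonneg (by positivity) (Finset.sum_nonneg fun S _ => ?_)
  split_ifs
  · exact PF_nonneg eb S
  · exact le_refl _

theorem HH_subset (l k : ℕ) : HH l k ⊆ range (2 ^ (l * k)) := by
  classical
  intro x hx
  unfold HH at hx
  exact (Finset.mem_filter.mp hx).1

/-- the average of `F1f` over the typical values -/
noncomputable def GG (q m g t₁ l : ℕ) (wm : ℕ → ℕ → ℝ) (t : ℕ) (y : ℝ) : ℝ :=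
  (∑ e ∈ HH l l, F1f l (l * l) (kc l l e) (q ^ t) (omv q m g t₁ wm t) y) / 2 ^ (l * l)

/-- constant -/
noncomputable def AA (q m : ℕ) : ℝ :=
  30 * q / (1 / 2 - 2 * eb - kk) * (2 * (q : ℝ) ^ (kk * m)) * 16 * q

theorem GG_int (hF : F1TStmt) (hKR : KERStmt) (hKE : KEQStmt) (q m g t₁ l t : ℕ) (hq : 2 ≤ q)
    (hm : 1 ≤ m) (hg : 1 ≤ g) (hl : 2 ≤ l) (wm : ℕ → ℕ → ℝ) (hmk : MK q m kk wm)
    (ht : t₁ + g ≤ t) (hqt : (q : ℝ) ^ t ≤ q * (2 : ℝ) ^ (l * l))
    (hkb : ∀ e ∈ HH l l,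
      (∑ x ∈ range (2 ^ (l * l)), kc l l e x = 1) ∧
      ∀ D : ℝ, 1 ≤ D → D ≤ 2 ^ (l * l) →
        (∑ x ∈ range (2 ^ (l * l)), ∑ x' ∈ range (2 ^ (l * l)),
          if |(x : ℝ) - x'| < D then kc l l e x * kc l l e x' else 0) ≤
          2 ^ (2 * l + 4) * (D / 2 ^ (l * l)) ^ (1 / 2 - 2 * eb)) :
    Continuous (GG q m g t₁ l wm t) ∧ (∀ y, 0 ≤ GG q m g t₁ l wm t y) ∧
      ∫ y in (0 : ℝ)..1, GG q m g t₁ l wm t y ≤
        AA q m * 4 ^ l * (q : ℝ) ^ (-(4 / 10 * t₁ : ℝ)) := by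
  have hkk : (0 : ℝ) ≤ kk := by
    unfold kk
    norm_num
  have hq0 : (0 : ℝ) < q := by
    have : 0 < q := by omega
    exact_mod_cast this
  have hq1 : (1 : ℝ) ≤ q := by
    have : 1 ≤ q := by omega
    exact_mod_cast this
  obtain ⟨k1, k2, -, -, -, k6⟩ := hKR q m g t₁ t kk wm hq hm hg ht hkk hmk
  have k7 := hKE q m g t₁ t kk wm hq hm hg ht hkk hmk
  have hC1 : 1 ≤ 2 * (q : ℝ) ^ (kk * m) := by
    have : 1 ≤ (q : ℝ) ^ (kk * m) := Real.one_le_rpow hq1 (by positivity)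
    linarith
  have main : ∀ e ∈ HH l l,
      Continuous (F1f l (l * l) (kc l l e) (q ^ t) (omv q m g t₁ wm t)) ∧
      (∀ y, 0 ≤ F1f l (l * l) (kc l l e) (q ^ t) (omv q m g t₁ wm t) y) ∧
      ∫ y in (0:ℝ)..1, F1f l (l * l) (kc l l e) (q ^ t) (omv q m g t₁ wm t) y ≤
        30 * q / (1 / 2 - 2 * eb - kk) * (2 * (q : ℝ) ^ (kk * m)) * 2 ^ (2 * l + 4) *
          ((q:ℝ) ^ (t - t₁) / 2 ^ (l * l)) ^ (1 / 2 - 2 * eb) := by
    intro e he
    obtain ⟨b1, b2⟩ := hkb e he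
    refine hF l q t t₁ (l * l) kk (2 * (q : ℝ) ^ (kk * m)) (2 ^ (2 * l + 4)) (1 / 2 - 2 * eb)
      (omv q m g t₁ wm t) (kc l l e) hq (by omega) hl hkk hC1 (fun a b => k1 (a, b))
      (fun V _ => k2 V) ?_ ?_ ?_ ?_ ?_ (fun x => kc_nonneg l l e x) b1 b2
    · intro V hV a ha
      unfold omv
      rw [k6 (V, (a + q ^ (t - t₁)) % q ^ t), k6 (V, a)]
      have hd : q ^ (t - t₁) ∣ q ^ t := pow_dvd_pow q (by omega)
      have e1 : (a + q ^ (t - t₁)) % q ^ t % q ^ (t - t₁) = a % q ^ (t - t₁) := by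
        rw [Nat.mod_mod_of_dvd _ hd, Nat.add_mod_right]
      show omK q m g t₁ wm t (V % q ^ (t - t₁), (a + q ^ (t - t₁)) % q ^ t % q ^ (t - t₁)) =
        omK q m g t₁ wm t (V % q ^ (t - t₁), a % q ^ (t - t₁))
      rw [e1]
    · intro V hV i h1 h2 a ha
      exact k7 V i h1 h2 a ha
    · unfold kk eb
      norm_num
    · unfold eb
      norm_num
    · exact one_le_pow₀ (by norm_num)
  have hden : (0 : ℝ) < 1 / 2 - 2 * eb - kk := by
    unfold kk eb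
    norm_num
  set B : ℝ := 30 * q / (1 / 2 - 2 * eb - kk) * (2 * (q : ℝ) ^ (kk * m)) * 2 ^ (2 * l + 4) *
          ((q:ℝ) ^ (t - t₁) / 2 ^ (l * l)) ^ (1 / 2 - 2 * eb) with hB
  have hB0 : 0 ≤ B := by
    rw [hB]
    positivity
  have hBle : B ≤ AA q m * 4 ^ l * (q : ℝ) ^ (-(4 / 10 * t₁ : ℝ)) := by
    have e1 : (q:ℝ) ^ (t - t₁) / 2 ^ (l * l) ≤ q * (q : ℝ) ^ (-(t₁ : ℝ)) := by
      rw [div_le_iff₀ (by positivity)]
      have e2 : (q : ℝ) ^ (t - t₁) * (q : ℝ) ^ t₁ = (q : ℝ) ^ t := by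
        rw [← pow_add]
        congr 1
        omega
      have e3 : (q : ℝ) ^ (-(t₁ : ℝ)) = ((q : ℝ) ^ t₁)⁻¹ := by
        rw [Real.rpow_neg hq0.le, Real.rpow_natCast]
      have hp : (0 : ℝ) < (q : ℝ) ^ t₁ := by positivity
      rw [e3]
      refine le_of_mul_le_mul_right ?_ hp
      rw [e2]
      refine hqt.trans (le_of_eq ?_)
      field_simp
    have e4 : ((q:ℝ) ^ (t - t₁) / 2 ^ (l * l)) ^ (1 / 2 - 2 * eb) ≤
        q * (q : ℝ) ^ (-(4 / 10 * t₁ : ℝ)) := by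
      have hbet : (0 : ℝ) ≤ 1 / 2 - 2 * eb := by
        unfold eb
        norm_num
      have hbet1 : 1 / 2 - 2 * eb ≤ 1 := by
        unfold eb
        norm_num
      have hbet4 : 4 / 10 ≤ 1 / 2 - 2 * eb := by
        unfold eb
        norm_num
      refine (Real.rpow_le_rpow (by positivity) e1 hbet).trans ?_
      rw [Real.mul_rpow hq0.le (Real.rpow_nonneg hq0.le _), ← Real.rpow_mul hq0.le]
      have f1 : (q : ℝ) ^ (1 / 2 - 2 * eb) ≤ q := by
        have := Real.rpow_le_rpow_of_exponent_le hq1 hbet1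
        rwa [Real.rpow_one] at this
      have f2 : (q : ℝ) ^ (-(t₁ : ℝ) * (1 / 2 - 2 * eb)) ≤ (q : ℝ) ^ (-(4 / 10 * t₁ : ℝ)) := by
        refine Real.rpow_le_rpow_of_exponent_le hq1 ?_
        have : (0 : ℝ) ≤ t₁ := Nat.cast_nonneg _
        nlinarith
      exact mul_le_mul f1 f2 (Real.rpow_nonneg hq0.le _) hq0.le
    rw [hB]
    have e5 : (2 : ℝ) ^ (2 * l + 4) = 16 * 4 ^ l := by
      rw [pow_add, pow_mul]
      norm_num
      ring
    rw [e5]
    refine (mul_le_mul_of_nonneg_left e4 (by positivity)).trans (le_of_eq ?_)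
    unfold AA
    ring
  have hcard : ((HH l l).card : ℝ) ≤ 2 ^ (l * l) := by
    have h0 : HH l l ⊆ range (2 ^ (l * l)) := HH_subset l l
    have : (HH l l).card ≤ 2 ^ (l * l) := by
      have := Finset.card_le_card h0
      rwa [Finset.card_range] at this
    exact_mod_cast this
  refine ⟨?_, ?_, ?_⟩
  · unfold GG
    exact (continuous_finsetSum _ fun e he => (main e he).1).div_const _
  · intro y
    unfold GG
    exact div_nonneg (Finset.sum_nonneg fun e he => (main e he).2.1 y) (by positivity)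
  · unfold GG
    rw [intervalIntegral.integral_div, intervalIntegral.integral_finsetSum
      (fun e he => ((main e he).1).intervalIntegrable 0 1)]
    have h1 : ∑ e ∈ HH l l, ∫ y in (0:ℝ)..1, F1f l (l * l) (kc l l e) (q ^ t) (omv q m g t₁ wm t) y ≤
        (HH l l).card * B := by
      rw [← nsmul_eq_mul]
      exact Finset.sum_le_card_nsmul _ _ _ fun e he => (main e he).2.2
    have h2 : (HH l l).card * B ≤ 2 ^ (l * l) * B := mul_le_mul_of_nonneg_right hcard hB0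
    rw [div_le_iff₀ (by positivity)]
    calc ∑ e ∈ HH l l, ∫ y in (0:ℝ)..1, F1f l (l * l) (kc l l e) (q ^ t) (omv q m g t₁ wm t) y
        ≤ 2 ^ (l * l) * B := h1.trans h2
      _ = B * 2 ^ (l * l) := mul_comm _ _
      _ ≤ _ := mul_le_mul_of_nonneg_right hBle (by positivity)

/-- elementary choice of `l₀` -/
theorem choose_l (C δ θ : ℝ) (hC : 0 ≤ C) (hδ : 0 < δ) (hθ : 0 < θ) : ∃ l₀ : ℕ, ∀ l ≥ l₀,
    ∀ q : ℕ, 2 ≤ q → ∀ t₁ : ℕ, θ * l ^ 2 ≤ t₁ →
    C * (l * l + 4) * 4 ^ l * (q : ℝ) ^ (-(1 / 10 * t₁ : ℝ)) ≤ δ := by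
  obtain ⟨a, ha⟩ := pow_unbounded_of_one_lt (5 * C / δ) (by norm_num : (1 : ℝ) < 2)
  obtain ⟨b, hb⟩ := exists_nat_gt (50 / θ)
  refine ⟨max a b, fun l hl q hq t₁ ht => ?_⟩
  have hla : a ≤ l := le_trans (le_max_left _ _) hl
  have hlb : b ≤ l := le_trans (le_max_right _ _) hl
  have two : (0 : ℝ) < 2 := by norm_num
  have hlb' : 50 / θ ≤ l := hb.le.trans (by exact_mod_cast hlb)
  have hl50 : 50 ≤ l * θ := by
    rwa [div_le_iff₀ hθ] at hlb'
  have h1 : (q : ℝ) ^ (-(1 / 10 * t₁ : ℝ)) ≤ (2 : ℝ) ^ (-(5 * l : ℝ)) := by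
    have e1 : (q : ℝ) ^ (-(1 / 10 * t₁ : ℝ)) ≤ (2 : ℝ) ^ (-(1 / 10 * t₁ : ℝ)) := by
      have hq2 : (2 : ℝ) ≤ q := by exact_mod_cast hq
      have ht0 : (0 : ℝ) ≤ t₁ := Nat.cast_nonneg _
      exact Real.rpow_le_rpow_of_nonpos two hq2 (by linarith)
    refine e1.trans (Real.rpow_le_rpow_of_exponent_le (by norm_num) ?_)
    have hl0 : (0 : ℝ) ≤ l := Nat.cast_nonneg _
    have : 50 * (l : ℝ) ≤ θ * l ^ 2 := by nlinarith
    linarith
  have h2 : ((l : ℝ) * l + 4) ≤ 5 * 4 ^ l := by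
    have e1 : (l : ℝ) ≤ 2 ^ l := by
      have : l < 2 ^ l := Nat.lt_two_pow_self
      exact_mod_cast this.le
    have e2 : (4 : ℝ) ^ l = 2 ^ l * 2 ^ l := by
      rw [← mul_pow]
      norm_num
    have e3 : (1 : ℝ) ≤ 4 ^ l := one_le_pow₀ (by norm_num)
    have hl0 : (0 : ℝ) ≤ l := Nat.cast_nonneg _
    have e4 : (l : ℝ) * l ≤ 2 ^ l * 2 ^ l := mul_le_mul e1 e1 hl0 (by positivity)
    rw [← e2] at e4
    linarith
  have h3 : (2 : ℝ) ^ (-(5 * l : ℝ)) = ((32 : ℝ) ^ l)⁻¹ := by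
    rw [Real.rpow_neg two.le]
    congr 1
    have : (5 * l : ℝ) = ((5 * l : ℕ) : ℝ) := by
      push_cast
      ring
    rw [this, Real.rpow_natCast, pow_mul]
    norm_num
  have h4 : 5 * C / δ ≤ 2 ^ l := ha.le.trans (pow_le_pow_right₀ (by norm_num) hla)
  have h5 : 5 * C ≤ δ * 2 ^ l := by
    rw [div_le_iff₀ hδ] at h4
    linarith
  calc C * (l * l + 4) * 4 ^ l * (q : ℝ) ^ (-(1 / 10 * t₁ : ℝ))
      ≤ C * (5 * 4 ^ l) * 4 ^ l * (2 : ℝ) ^ (-(5 * l : ℝ)) := by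
        refine mul_le_mul ?_ h1 (Real.rpow_nonneg (by positivity) _) (by positivity)
        exact mul_le_mul_of_nonneg_right (mul_le_mul_of_nonneg_left h2 hC) (by positivity)
    _ = 5 * C * 16 ^ l * ((32 : ℝ) ^ l)⁻¹ := by
        rw [h3]
        have : (16 : ℝ) ^ l = 4 ^ l * 4 ^ l := by
          rw [← mul_pow]
          norm_num
        rw [this]
        ring
    _ ≤ δ * 2 ^ l * 16 ^ l * ((32 : ℝ) ^ l)⁻¹ := by
        refine mul_le_mul_of_nonneg_right ?_ (by positivity)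
        exact mul_le_mul_of_nonneg_right h5 (by positivity)
    _ = δ := by
        have : (32 : ℝ) ^ l = 2 ^ l * 16 ^ l := by
          rw [← mul_pow]
          norm_num
        rw [this]
        have hp : (2 : ℝ) ^ l * 16 ^ l ≠ 0 := by positivity
        field_simp

/-- Markov's inequality for a sum -/
theorem card_large (K : ℕ) (f : ℕ → ℝ) (hf : ∀ i, 0 ≤ f i) (η S : ℝ) (hS : ∑ i ∈ range K, f i ≤ S) :
    (((range K).filter fun i => η < f i).card : ℝ) * η ≤ S := by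
  have h2 : ∑ i ∈ (range K).filter (fun i => η < f i), η ≤ ∑ i ∈ (range K).filter (fun i => η < f i), f i :=
    Finset.sum_le_sum fun i hi => (Finset.mem_filter.mp hi).2.le
  rw [Finset.sum_const, nsmul_eq_mul] at h2
  exact (h2.trans (Finset.sum_le_sum_of_subset_of_nonneg (filter_subset _ _) fun i _ _ => hf i)).trans hS

open Classical in
/-- AVS with a general gap `B₀` -/
def AVSGen (B₀ : ℕ) : Prop := ∀ q : ℕ, (q = 3 ∨ q = 5) → ∀ m g T : ℕ, 1 ≤ m → 1 ≤ g → ∀ θ : ℝ, 0 < θ →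
  ∀ δ : ℝ, 0 < δ → ∃ l₀ : ℕ, ∀ l ≥ l₀, ∀ wm : ℕ → ℕ → ℝ, MK q m kk wm → ∀ t₁ : ℕ, θ * l ^ 2 ≤ t₁ →
  (∀ J, l * l ≤ J → t₁ + g ≤ tt q (l * l) J) → ∀ W : ℕ, W = l * l * (B₀ + T) →
  ∃ K₀ : ℕ, ∀ K ≥ K₀, ∀ J : ℕ,
    (((range K).filter fun i => ¬ ∀ b, B₀ ≤ b → b < B₀ + T →
      GoodF q m g t₁ l l wm (J + (i + 1) * W - l * l * b)).card : ℝ) ≤ δ * K

theorem avs_gen (B₀ : ℕ) (hB₀ : 0 < B₀) (hF : F1TStmt) (hKR : KERStmt) (hKE : KEQStmt) (hKB : KBStmt) : AVSGen B₀ := by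
  intro q hq m g T hm hg θ hθ δ hδ
  have hq2 : 2 ≤ q := by rcases hq with h | h <;> omega
  have hq5 : q ≤ 8 := by rcases hq with h | h <;> omega
  have hq0 : (0 : ℝ) < q := by
    have : 0 < q := by omega
    exact_mod_cast this
  have hq1 : (1 : ℝ) ≤ q := by
    have : 1 ≤ q := by omega
    exact_mod_cast this
  have hA0 : 0 ≤ AA q m := by
    have hden : (0 : ℝ) < 1 / 2 - 2 * eb - kk := by
      unfold kk eb
      norm_num
    unfold AA
    positivity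
  obtain ⟨l₁, hl₁⟩ := hKB
  obtain ⟨l₂, hl₂⟩ := choose_l (10 * AA q m * (T + 1)) (δ / 2) θ (by positivity) (by positivity) hθ
  refine ⟨max 2 (max l₁ l₂), fun l hl wm hmk t₁ ht₁ htt W hW => ?_⟩
  have hl2 : 2 ≤ l := le_trans (le_max_left _ _) hl
  have hll1 : l₁ ≤ l := le_trans (le_trans (le_max_left _ _) (le_max_right _ _)) hl
  have hll2 : l₂ ≤ l := le_trans (le_trans (le_max_right _ _) (le_max_right _ _)) hl
  have hW0 : 0 < W := by
    rw [hW]
    have h1 : 0 < l := by omega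
    have h2 : 0 < B₀ + T := by omega
    exact Nat.mul_pos (Nat.mul_pos h1 h1) h2
  have hkb := hl₁ l hll1
  set η : ℝ := (q : ℝ) ^ (-(3 / 10 * t₁ : ℝ)) with hη
  have hη0 : 0 < η := Real.rpow_pos_of_pos hq0 _
  set M : ℝ := (T + 1) * (l * l + 4) with hM
  have hM0 : 0 < M := by
    rw [hM]
    positivity
  set ε : ℝ := η * δ / (2 * M) with hε
  have hε0 : 0 < ε := by
    rw [hε]
    positivity
  -- the averages
  have key : ∀ t : ℕ, ∃ K₀ : ℕ, t₁ + g ≤ t → (q : ℝ) ^ t ≤ q * (2 : ℝ) ^ (l * l) →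
      ∀ K ≥ K₀, ∀ J : ℕ, ∑ i ∈ range K, GG q m g t₁ l wm t (yy q (J + i * W)) ≤
        K * (10 * (AA q m * 4 ^ l * (q : ℝ) ^ (-(4 / 10 * t₁ : ℝ))) + ε) := by
    intro t
    by_cases h : t₁ + g ≤ t ∧ (q : ℝ) ^ t ≤ q * (2 : ℝ) ^ (l * l)
    · obtain ⟨g1, g2, g3⟩ := GG_int hF hKR hKE q m g t₁ l t hq2 hm hg hl2 wm hmk h.1 h.2 hkb
      obtain ⟨K₀, hK₀⟩ := Pool.K2H13.weyl q hq W hW0 (GG q m g t₁ l wm t) g1.continuousOn
        (fun y _ => g2 y) ε hε0
      refine ⟨K₀, fun _ _ K hK J => (hK₀ K hK J).trans ?_⟩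
      refine mul_le_mul_of_nonneg_left ?_ (Nat.cast_nonneg _)
      linarith
    · exact ⟨0, fun h1 h2 => absurd ⟨h1, h2⟩ h⟩
  choose K₀ hK₀ using key
  refine ⟨(range (l * l + 4)).sup K₀, fun K hK J => ?_⟩
  classical
  set TT : Finset ℕ := (range (l * l + 4)).filter
    (fun t => t₁ + g ≤ t ∧ (q : ℝ) ^ t ≤ q * (2 : ℝ) ^ (l * l)) with hTT
  -- the bad windows
  have hsub : ((range K).filter fun i => ¬ ∀ b, B₀ ≤ b → b < B₀ + T →
      GoodF q m g t₁ l l wm (J + (i + 1) * W - l * l * b)) ⊆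
      (Finset.Ico B₀ (B₀ + T)).biUnion fun b => TT.biUnion fun t =>
        (range K).filter fun i => η < GG q m g t₁ l wm t (yy q ((J + W - l * l * (b + 1)) + i * W)) := by
    intro i hi
    have hiK : i ∈ range K := Finset.mem_of_mem_filter i hi
    have hi2 := (Finset.mem_filter.mp hi).2
    obtain ⟨b, hb⟩ := not_forall.mp hi2
    obtain ⟨hb1, hb'⟩ := Classical.not_imp.mp hb
    obtain ⟨hb2, hb3⟩ := Classical.not_imp.mp hb'
    have hWb : l * l * (b + 1) ≤ W := by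
      rw [hW]
      exact Nat.mul_le_mul_left _ (by omega)
    have hiW : (i + 1) * W = i * W + W := by ring
    have hbb : l * l * (b + 1) = l * l * b + l * l := by ring
    have hJ1 : l * l ≤ J + (i + 1) * W - l * l * b := by
      rw [hiW]
      omega
    have hJ2 : J + (i + 1) * W - l * l * b - l * l = (J + W - l * l * (b + 1)) + i * W := by
      rw [hiW]
      omega
    have ht1 := htt _ hJ1
    have ht2 := pow_tt_le q (l * l) _ hq2 hJ1
    unfold GoodF at hb3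
    rw [hJ2] at hb3
    push Not at hb3
    rw [Finset.mem_biUnion]
    refine ⟨b, Finset.mem_Ico.mpr ⟨hb1, hb2⟩, ?_⟩
    rw [Finset.mem_biUnion]
    refine ⟨tt q (l * l) (J + (i + 1) * W - l * l * b), ?_, ?_⟩
    · rw [hTT, Finset.mem_filter, Finset.mem_range]
      refine ⟨?_, ht1, ht2⟩
      by_contra hcon
      push Not at hcon
      have c1 : (2 : ℝ) ^ (l * l + 4) ≤ (q : ℝ) ^ tt q (l * l) (J + (i + 1) * W - l * l * b) := by
        have hq2' : (2 : ℝ) ≤ q := by exact_mod_cast hq2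
        exact (pow_le_pow_right₀ (by norm_num) hcon).trans (pow_le_pow_left₀ (by norm_num) hq2' _)
      have c2 : (q : ℝ) * (2 : ℝ) ^ (l * l) ≤ 8 * (2 : ℝ) ^ (l * l) := by
        refine mul_le_mul_of_nonneg_right ?_ (by positivity)
        exact_mod_cast hq5
      have c3 : (2 : ℝ) ^ (l * l + 4) = 16 * (2 : ℝ) ^ (l * l) := by
        rw [pow_add]
        norm_num
        ring
      have c4 : (0 : ℝ) < (2 : ℝ) ^ (l * l) := by positivity
      linarith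
    · rw [Finset.mem_filter]
      exact ⟨hiK, hb3⟩
  have hcount : ∀ b ∈ Finset.Ico B₀ (B₀ + T), ∀ t ∈ TT,
      (((range K).filter fun i => η < GG q m g t₁ l wm t (yy q ((J + W - l * l * (b + 1)) + i * W))).card : ℝ) ≤
        K * (10 * (AA q m * 4 ^ l * (q : ℝ) ^ (-(4 / 10 * t₁ : ℝ))) + ε) / η := by
    intro b _ t ht
    rw [hTT, Finset.mem_filter] at ht
    have hKt : K₀ t ≤ K := le_trans (Finset.le_sup (f := K₀) ht.1) hK
    have h1 := hK₀ t ht.2.1 ht.2.2 K hKt (J + W - l * l * (b + 1))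
    obtain ⟨g1, g2, g3⟩ := GG_int hF hKR hKE q m g t₁ l t hq2 hm hg hl2 wm hmk ht.2.1 ht.2.2 hkb
    rw [le_div_iff₀ hη0]
    exact card_large K _ (fun i => g2 _) η _ h1
  set R : ℝ := K * (10 * (AA q m * 4 ^ l * (q : ℝ) ^ (-(4 / 10 * t₁ : ℝ))) + ε) / η with hR
  have hR0 : 0 ≤ R := by
    rw [hR]
    positivity
  have hTTc : (TT.card : ℝ) ≤ l * l + 4 := by
    have : TT.card ≤ l * l + 4 := by
      rw [hTT]
      refine (Finset.card_filter_le _ _).trans ?_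
      rw [Finset.card_range]
    exact_mod_cast this
  have htotal : ((((range K).filter fun i => ¬ ∀ b, B₀ ≤ b → b < B₀ + T →
      GoodF q m g t₁ l l wm (J + (i + 1) * W - l * l * b)).card : ℕ) : ℝ) ≤ M * R := by
    have s1 := Finset.card_le_card hsub
    have s2 : (((Finset.Ico B₀ (B₀ + T)).biUnion fun b => TT.biUnion fun t =>
        (range K).filter fun i => η < GG q m g t₁ l wm t (yy q ((J + W - l * l * (b + 1)) + i * W))).card : ℝ) ≤
        ∑ b ∈ Finset.Ico B₀ (B₀ + T), ∑ t ∈ TT, R := by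
      have u1 : ((Finset.Ico B₀ (B₀ + T)).biUnion fun b => TT.biUnion fun t =>
          (range K).filter fun i => η < GG q m g t₁ l wm t (yy q ((J + W - l * l * (b + 1)) + i * W))).card ≤
          ∑ b ∈ Finset.Ico B₀ (B₀ + T), ∑ t ∈ TT,
            ((range K).filter fun i => η < GG q m g t₁ l wm t (yy q ((J + W - l * l * (b + 1)) + i * W))).card :=
        Finset.card_biUnion_le.trans (Finset.sum_le_sum fun b _ => Finset.card_biUnion_le)
      have u2 : ((∑ b ∈ Finset.Ico B₀ (B₀ + T), ∑ t ∈ TT,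
            ((range K).filter fun i => η < GG q m g t₁ l wm t (yy q ((J + W - l * l * (b + 1)) + i * W))).card : ℕ) : ℝ) ≤
          ∑ b ∈ Finset.Ico B₀ (B₀ + T), ∑ t ∈ TT, R := by
        push_cast
        exact Finset.sum_le_sum fun b hb => Finset.sum_le_sum fun t ht => hcount b hb t ht
      exact le_trans (by exact_mod_cast u1) u2
    have s3 : ∑ b ∈ Finset.Ico B₀ (B₀ + T), ∑ t ∈ TT, R ≤ M * R := by
      rw [Finset.sum_const, Finset.sum_const, Nat.card_Ico, nsmul_eq_mul, nsmul_eq_mul, ← mul_assoc]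
      refine mul_le_mul_of_nonneg_right ?_ hR0
      rw [hM]
      have v1 : ((B₀ + T - B₀ : ℕ) : ℝ) ≤ T + 1 := by
        rw [Nat.add_sub_cancel_left]
        linarith
      have v2 : (0 : ℝ) ≤ T + 1 := by positivity
      exact mul_le_mul v1 hTTc (Nat.cast_nonneg _) v2
    exact le_trans (by exact_mod_cast s1) (s2.trans s3)
  refine htotal.trans ?_
  -- numbers
  have n1 : (q : ℝ) ^ (-(4 / 10 * t₁ : ℝ)) = η * (q : ℝ) ^ (-(1 / 10 * t₁ : ℝ)) := by
    rw [hη, ← Real.rpow_add hq0]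
    congr 1
    ring
  have n2 := hl₂ l hll2 q hq2 t₁ ht₁
  have n3 : M * R = K * (10 * AA q m * (T + 1) * (l * l + 4) * 4 ^ l * (q : ℝ) ^ (-(1 / 10 * t₁ : ℝ)) + δ / 2) := by
    have hMne : M ≠ 0 := hM0.ne'
    have hηne : η ≠ 0 := hη0.ne'
    have e1 : ε = η * (δ / (2 * M)) := by
      rw [hε]
      ring
    have e2 : R = K * (10 * (AA q m * 4 ^ l * (q : ℝ) ^ (-(1 / 10 * t₁ : ℝ))) + δ / (2 * M)) := by
      rw [hR, n1, e1]
      field_simp
    have e3 : M * (δ / (2 * M)) = δ / 2 := by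
      field_simp
    calc M * R = K * (10 * AA q m * M * 4 ^ l * (q : ℝ) ^ (-(1 / 10 * t₁ : ℝ)) + M * (δ / (2 * M))) := by
          rw [e2]
          ring
      _ = _ := by
          rw [e3, hM]
          ring
  rw [n3]
  calc (K : ℝ) * (10 * AA q m * (T + 1) * (l * l + 4) * 4 ^ l * (q : ℝ) ^ (-(1 / 10 * t₁ : ℝ)) + δ / 2)
      ≤ K * (δ / 2 + δ / 2) := mul_le_mul_of_nonneg_left (by linarith) (Nat.cast_nonneg _)
    _ = δ * K := by ring

end Pool.Agent.H54.FD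

namespace Pool.Agent.H24.FD
open Finset Pool.K2 Pool.FD MeasureTheory Pool.Agent.H54.FD

theorem avs (hF : F1TStmt) (hKR : KERStmt) (hKE : KEQStmt) (hKB : KBStmt) : AVSStmt :=
  avs_gen 3200 (by norm_num) hF hKR hKE hKB

end Pool.Agent.H24.FD
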