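import Pool.Agent.H84.FD.S2

/-! MP_1f2761, k = 2: row SUR (8.1). -/

set_option autoImplicit false

namespace Pool.FD
open Finset Pool.K2 MeasureTheory Pool.Agent.H24.FD

theorem sur : SURStmt := by
  intro p m J x c hp hc h1 h2
  have hP : (0 : ℝ) < (p : ℝ) ^ m := by positivity
  have key : ∀ a : ℕ, Int.fract ((a : ℝ) * ((2 : ℝ) ^ J / (p : ℝ) ^ m)) =
      ((a * 2 ^ J % p ^ m : ℕ) : ℝ) / (p : ℝ) ^ m := by
    intro a
    have e : (a : ℝ) * ((2 : ℝ) ^ J / (p : ℝ) ^ m) = ((a * 2 ^ J : ℕ) : ℝ) / ((p ^ m : ℕ) : ℝ) := by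
      push_cast
      ring
    rw [e, Int.fract_div_natCast_eq_div_natCast_mod]
    push_cast
    rfl
  rw [key, key] at h1
  rw [key] at h2
  constructor
  · have h3 : ((x.1 * 2 ^ J % p ^ m : ℕ) : ℝ) / (p : ℝ) ^ m + (2 : ℝ) ^ J / (p : ℝ) ^ m <
        ((x.2 * 2 ^ J % p ^ m : ℕ) : ℝ) / (p : ℝ) ^ m := by linarith
    rw [← add_div, div_lt_div_iff_of_pos_right hP] at h3
    have h4 : x.1 * 2 ^ J % p ^ m + 2 ^ J < x.2 * 2 ^ J % p ^ m := by exact_mod_cast h3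
    exact h4.le
  · have h3 : ((x.2 * 2 ^ J % p ^ m : ℕ) : ℝ) / (p : ℝ) ^ m + (2 : ℝ) ^ J / (p : ℝ) ^ m < 1 := by
      linarith
    rw [← add_div, div_lt_one hP] at h3
    have h4 : x.2 * 2 ^ J % p ^ m + 2 ^ J < p ^ m := by exact_mod_cast h3
    exact h4.le

end Pool.FD
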