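import Pool.Agent.H24.FD.P5

/-! MP_1f2761, k = 2: row PQP, the window theorem for one base `p ≠ 2, q`. -/

set_option autoImplicit false

namespace Pool.Agent.H54.FD
open Finset Pool.K2 Pool.FD MeasureTheory Pool.Agent.H24.FD

theorem card3 (K : ℕ) (P P1 P2 P3 : ℕ → Prop) (hP : ∀ i, P1 i → P2 i → P3 i → P i)
    {i0 : DecidablePred fun i => ¬ P i} {i1 : DecidablePred fun i => ¬ P1 i}
    {i2 : DecidablePred fun i => ¬ P2 i} {i3 : DecidablePred fun i => ¬ P3 i} (δ : ℝ)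
    (h1 : (((range K).filter fun i => ¬ P1 i).card : ℝ) ≤ δ * K)
    (h2 : (((range K).filter fun i => ¬ P2 i).card : ℝ) ≤ δ * K)
    (h3 : (((range K).filter fun i => ¬ P3 i).card : ℝ) ≤ δ * K) :
    (((range K).filter fun i => ¬ P i).card : ℝ) ≤ 3 * δ * K := by
  have hsub : ((range K).filter fun i => ¬ P i) ⊆ (((range K).filter fun i => ¬ P1 i) ∪
      ((range K).filter fun i => ¬ P2 i)) ∪ ((range K).filter fun i => ¬ P3 i) := by
    intro i hi
    rw [Finset.mem_filter] at hi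
    rw [Finset.mem_union, Finset.mem_union, Finset.mem_filter, Finset.mem_filter, Finset.mem_filter]
    by_cases a1 : P1 i
    · by_cases a2 : P2 i
      · by_cases a3 : P3 i
        · exact absurd (hP i a1 a2 a3) hi.2
        · exact Or.inr ⟨hi.1, a3⟩
      · exact Or.inl (Or.inr ⟨hi.1, a2⟩)
    · exact Or.inl (Or.inl ⟨hi.1, a1⟩)
  have hc : ((range K).filter fun i => ¬ P i).card ≤ ((range K).filter fun i => ¬ P1 i).card +
      ((range K).filter fun i => ¬ P2 i).card + ((range K).filter fun i => ¬ P3 i).card :=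
    (Finset.card_le_card hsub).trans ((Finset.card_union_le _ _).trans
      (Nat.add_le_add_right (Finset.card_union_le _ _) _))
  have hc' : (((range K).filter fun i => ¬ P i).card : ℝ) ≤ (((range K).filter fun i => ¬ P1 i).card : ℝ) +
      (((range K).filter fun i => ¬ P2 i).card : ℝ) + (((range K).filter fun i => ¬ P3 i).card : ℝ) := by
    exact_mod_cast hc
  linarith

end Pool.Agent.H54.FD

namespace Pool.Agent.H24.FD
open Finset Pool.K2 Pool.FD MeasureTheory Pool.Agent.H54.FD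

theorem pqp (hWNP : WNPStmt) (hLQP : LQPStmt) (hLIM : LIMStmt) (hATY : ATYStmt) (hMARG : MARGStmt)
    (hTMJ : Pool.FD.TMJStmt) (hPRM : PRMStmt) (hBET : BETStmt) (hAVF : AVFStmt) (hAVS : AVSStmt)
    (hAVG : AVGStmt) (hONN : ONNStmt) : PQPStmt := by
  intro q hq p hp hp2 hpq e T m g θ wm he he1 hT hm hg hθ hθe hmk
  have hq2 : 2 ≤ q := by rcases hq with h | h <;> omega
  have hp3 : 3 ≤ p := by
    have := hp.two_le
    omega
  have hp1 : (1 : ℝ) < p := by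
    have : 1 < p := by omega
    exact_mod_cast this
  have hdens : 0 ≤ dens q p := by
    unfold dens
    rw [if_neg hp2, if_neg hpq]
    have : 0 ≤ Real.logb 2 p := Real.logb_nonneg (by norm_num) hp1.le
    positivity
  obtain ⟨K₀, Mj, hK₀, hMj, hMj0, hMj1, hMj2⟩ := hTMJ (e / 64) (e / 16) (by positivity)
    (by linarith) (by positivity)
  obtain ⟨hm', hhm⟩ := exists_pow_lt_of_lt_one (show (0 : ℝ) < e / 64 by positivity)
    (show 1 / (p : ℝ) < 1 by
      rw [div_lt_one (by linarith)]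
      exact hp1)
  have hc : 1 / (p : ℝ) ^ hm' ≤ e / 64 := by
    have := hhm.le
    rwa [div_pow, one_pow] at this
  obtain ⟨d, d', hd, hd', l₁, hl₁⟩ := hLQP hLIM hATY q hq p hp3 hpq m T hm' K₀ e θ (Mj 0).re
    (∑ κ ∈ bx0 K₀, ‖Mj κ‖) he he1 hT hθ hθe hMj1 hMj2 (Finset.sum_nonneg fun κ _ => norm_nonneg _)
  obtain ⟨l₂, hl₂⟩ := hPRM hMARG q hq m g hm hg θ hθ (by linarith)
  obtain ⟨l₃, hl₃⟩ := hAVF q hq m g T hm hg θ hθ (e / 12) (by positivity)
  obtain ⟨l₄, hl₄⟩ := hAVS q hq m g T hm hg θ hθ (e / 12) (by positivity)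
  obtain ⟨l₅, hl₅⟩ := hAVG q hq p hp hp2 hpq m g T hm' K₀ hm hg θ hθ d hd (e / 12) (by positivity)
  refine ⟨max l₁ (max l₂ (max l₃ (max l₄ l₅))), fun l hl W hW => ?_⟩
  have a1 : l₁ ≤ l := by omega
  have a2 : l₂ ≤ l := by omega
  have a3 : l₃ ≤ l := by omega
  have a4 : l₄ ≤ l := by omega
  have a5 : l₅ ≤ l := by omega
  obtain ⟨hl200, hul, hpar⟩ := hl₂ l a2
  have hPar := hpar wm hmk
  have ht1 : θ * l ^ 2 ≤ (t1 θ l : ℝ) := Nat.le_ceil _
  have hu1 : θ * l ≤ (u1 θ l : ℝ) := Nat.le_ceil _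
  obtain ⟨k₃, hk₃⟩ := hl₃ l a3 wm hmk (t1 θ l) ht1 hPar.ht W hW
  obtain ⟨k₄, hk₄⟩ := hl₄ l a4 wm hmk (t1 θ l) ht1 hPar.ht W hW
  obtain ⟨k₅, hk₅⟩ := hl₅ l a5 wm hmk (t1 θ l) (u1 θ l) ht1 hPar.ht hu1 W hW
  refine hBET q p l T W e (fun Jt => omW q m g (t1 θ l) wm (l * l) 3200 Jt)
    (fun J => WGood q m g (t1 θ l) l l T (J + W) wm ∧
      (∀ b, 3200 ≤ b → b < 3200 + T → GoodF q m g (t1 θ l) l l wm (J + W - l * l * b)) ∧
      (∀ b, 3200 ≤ b → b < 3200 + T → GoodG q m g (t1 θ l) l l wm p (u1 θ l) hm' K₀ d (J + W - l * l * b)))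
    (by omega) he hdens hPar.marg hPar.hl
    (fun Jt J z => hONN q m g (t1 θ l) (l * l) 3200 Jt kk wm hq2 hg hmk J z) hW ?_ ?_
  · intro J hJ x
    obtain ⟨g1, g2, g3⟩ := hJ
    have h1 := hWNP q m g (t1 θ l) l l T (J + W) p (u1 θ l) hm' K₀ wm (e / 64) (e / 64) d d' Mj hPar
      hl200 (by omega) (by rw [← hW]; omega) hp3 (by positivity) hd hd' hc hK₀ hul hMj hMj0 hMj1 g1
      (fun b b1 b2 => ⟨g2 b b1 b2, g3 b b1 b2⟩) x
    have h2 := hl₁ l a1
    rw [← hW] at h1 h2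
    rw [Nat.add_sub_cancel] at h1
    exact h1.trans h2
  · refine ⟨max k₃ (max k₄ k₅), fun K hK J => ?_⟩
    have b3 : k₃ ≤ K := by omega
    have b4 : k₄ ≤ K := by omega
    have b5 : k₅ ≤ K := by omega
    have e1 : ∀ i, J + i * W + W = J + (i + 1) * W := fun i => by ring
    have e2 : 3 * (e / 12) * (K : ℝ) = e / 4 * K := by ring
    refine le_trans (card3 K _ _ _ _ (fun i (p1 : WGood q m g (t1 θ l) l l T (J + (i + 1) * W) wm)
      (p2 : ∀ b, 3200 ≤ b → b < 3200 + T → GoodF q m g (t1 θ l) l l wm (J + (i + 1) * W - l * l * b))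
      (p3 : ∀ b, 3200 ≤ b → b < 3200 + T →
        GoodG q m g (t1 θ l) l l wm p (u1 θ l) hm' K₀ d (J + (i + 1) * W - l * l * b)) =>
      (show (fun J => WGood q m g (t1 θ l) l l T (J + W) wm ∧
      (∀ b, 3200 ≤ b → b < 3200 + T → GoodF q m g (t1 θ l) l l wm (J + W - l * l * b)) ∧
      (∀ b, 3200 ≤ b → b < 3200 + T → GoodG q m g (t1 θ l) l l wm p (u1 θ l) hm' K₀ d (J + W - l * l * b)))
        (J + i * W) from by
          show WGood q m g (t1 θ l) l l T (J + i * W + W) wm ∧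
            (∀ b, 3200 ≤ b → b < 3200 + T → GoodF q m g (t1 θ l) l l wm (J + i * W + W - l * l * b)) ∧
            (∀ b, 3200 ≤ b → b < 3200 + T → GoodG q m g (t1 θ l) l l wm p (u1 θ l) hm' K₀ d
              (J + i * W + W - l * l * b))
          rw [e1]
          exact ⟨p1, p2, p3⟩)) (e / 12) (hk₃ K b3 J) (hk₄ K b4 J) (hk₅ K b5 J)) (le_of_eq e2)

end Pool.Agent.H24.FD
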